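import Pool.Agent.Lib.MP_0a5adf_nt.TP.Interfaces

/-!
ZCYC: the statement on the integers from the density statements for both signs.
-/

set_option autoImplicit false

namespace Pool.Agent.Lib.MP_0a5adf_nt.H38

open Finset TP

theorem tz_nat (n : ℕ) : TZ (n : ℤ) = (T true n : ℤ) := by
  unfold TZ T
  split_ifs <;> first | omega | simp_all

theorem tz_neg (n : ℕ) : TZ (-(n : ℤ)) = -(T false n : ℤ) := by
  unfold TZ T
  split_ifs <;> first | omega | simp_all

theorem tz_iter_nat (n k : ℕ) : TZ^[k] (n : ℤ) = ((T true)^[k] n : ℤ) := by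
  induction k with
  | zero => rfl
  | succ k ih => rw [Function.iterate_succ_apply', ih, tz_nat, Function.iterate_succ_apply']

theorem tz_iter_neg (n k : ℕ) : TZ^[k] (-(n : ℤ)) = -((T false)^[k] n : ℤ) := by
  induction k with
  | zero => rfl
  | succ k ih => rw [Function.iterate_succ_apply', ih, tz_neg, Function.iterate_succ_apply']

theorem zcyc (h1 : DensityStatement true) (h2 : DensityStatement false) : ZcycStatement := by
  obtain ⟨-, c1, C1, hc1, hC1, H1⟩ := h1
  obtain ⟨-, c2, C2, hc2, hC2, H2⟩ := h2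
  refine ⟨min c1 c2, C1 + C2, lt_min hc1 hc2, by positivity, fun X y hX hy => ?_⟩
  have hy0 : (0 : ℝ) < y := by linarith
  have hX0 : (0 : ℝ) ≤ X := by linarith
  have fin : ∀ d : Bool, {n : ℕ | (n : ℝ) ≤ X ∧ ∀ k, y ≤ ((T d)^[k] n : ℝ)}.Finite := by
    intro d
    refine (Set.finite_Iic ⌊X⌋₊).subset fun n hn => ?_
    exact Nat.le_floor hn.1
  set A := {n : ℕ | (n : ℝ) ≤ X ∧ ∀ k, y ≤ ((T true)^[k] n : ℝ)} with hA
  set B := {n : ℕ | (n : ℝ) ≤ X ∧ ∀ k, y ≤ ((T false)^[k] n : ℝ)} with hB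
  have hsub : {x : ℤ | |(x : ℝ)| ≤ X ∧ ∀ k, y ≤ |((TZ^[k] x : ℤ) : ℝ)|} ⊆
      (fun n : ℕ => (n : ℤ)) '' A ∪ (fun n : ℕ => -(n : ℤ)) '' B := by
    intro x hx
    obtain ⟨hx1, hx2⟩ := hx
    rcases le_total 0 x with h | h
    · left
      refine ⟨x.toNat, ⟨?_, fun k => ?_⟩, by simp [h]⟩
      · have : ((x.toNat : ℤ) : ℝ) = (x : ℝ) := by rw [Int.toNat_of_nonneg h]
        rw [← Int.cast_natCast, this]
        exact (le_abs_self _).trans hx1
      · have h3 := hx2 k
        have h4 : x = (x.toNat : ℤ) := by rw [Int.toNat_of_nonneg h]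
        rw [h4, tz_iter_nat] at h3
        simpa using h3
    · right
      refine ⟨(-x).toNat, ⟨?_, fun k => ?_⟩, by simp [h]⟩
      · have : (((-x).toNat : ℤ) : ℝ) = (-x : ℝ) := by
          rw [Int.toNat_of_nonneg (by omega)]; push_cast; ring
        rw [← Int.cast_natCast, this]
        exact (neg_le_abs _).trans hx1
      · have h3 := hx2 k
        have h4 : x = -((-x).toNat : ℤ) := by rw [Int.toNat_of_nonneg (by omega)]; ring
        rw [h4, tz_iter_neg] at h3
        simpa using h3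
  have hfin : ((fun n : ℕ => (n : ℤ)) '' A ∪ (fun n : ℕ => -(n : ℤ)) '' B).Finite :=
    ((fin true).image _).union ((fin false).image _)
  have hcard : ({x : ℤ | |(x : ℝ)| ≤ X ∧ ∀ k, y ≤ |((TZ^[k] x : ℤ) : ℝ)|}.ncard : ℝ) ≤
      (A.ncard : ℝ) + B.ncard := by
    have e1 := Set.ncard_le_ncard hsub hfin
    have e2 := Set.ncard_union_le ((fun n : ℕ => (n : ℤ)) '' A) ((fun n : ℕ => -(n : ℤ)) '' B)
    have e3 := Set.ncard_image_le (f := fun n : ℕ => (n : ℤ)) (fin true)
    have e4 := Set.ncard_image_le (f := fun n : ℕ => -(n : ℤ)) (fin false)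
    have : {x : ℤ | |(x : ℝ)| ≤ X ∧ ∀ k, y ≤ |((TZ^[k] x : ℤ) : ℝ)|}.ncard ≤
      A.ncard + B.ncard := by
      rw [← hA] at e3
      rw [← hB] at e4
      omega
    exact_mod_cast this
  have b1 := H1 X y hX hy
  have b2 := H2 X y hX hy
  have m1 : C1 * X / y ^ c1 ≤ C1 * X / y ^ min c1 c2 := by
    apply div_le_div_of_nonneg_left (by positivity) (by positivity)
    exact Real.rpow_le_rpow_of_exponent_le hy (min_le_left _ _)
  have m2 : C2 * X / y ^ c2 ≤ C2 * X / y ^ min c1 c2 := by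
    apply div_le_div_of_nonneg_left (by positivity) (by positivity)
    exact Real.rpow_le_rpow_of_exponent_le hy (min_le_right _ _)
  calc _ ≤ (A.ncard : ℝ) + B.ncard := hcard
    _ ≤ C1 * X / y ^ min c1 c2 + C2 * X / y ^ min c1 c2 := by linarith
    _ = (C1 + C2) * X / y ^ min c1 c2 := by ring

end Pool.Agent.Lib.MP_0a5adf_nt.H38
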